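import Pool.Agent.Y861.GoodR.Change

/-!
# Good endomorphisms of free associative algebras over arbitrary commutative rings

Over EVERY commutative ring `R` (not only over a field; zero divisors and nilpotent elements are allowed)
and for every `n`, every good endomorphism of `R⟨x_1, …, x_n⟩` is an automorphism; more generally so is
every endomorphism which can be approximated by automorphisms to every order at points of `R ^ n` which may
change with the order.

Proof. The case of a field is the starting result `GoodEndomorphisms`. Endomorphisms approximable by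
automorphisms are injective over every commutative ring. Over a domain `R` with fraction field `K`, some
nonzero multiple `s x_j` is of the form `φ(a)`; since the reduction of `φ` modulo `s` is again approximable,
hence injective, `a` is divisible by `s`, so that `x_j` is in the image of `φ`. In general the property that `φ` is surjective
modulo the ideal `I` is an Oka property of `I` of finite character which holds for all prime ideals, hence
for `I = 0`.
-/

set_option autoImplicit false

namespace Pool.Agent.Results.MP_54c2ef_al.AllCommutativeRings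

open Pool.Agent.Y861.GoodR

universe u

/-- The power `I^m` of the ideal `I = (x_1 - p_1, …, x_n - p_n)` of the free algebra `R⟨x_1, …, x_n⟩`: the
`R`-span of all products of at least `m` factors `x_i - p_i`. For `p = 0` this is the span of all monomials
of degree at least `m`. -/
def powAt {R : Type u} [CommRing R] {n : ℕ} (p : Fin n → R) (m : ℕ) :
    Submodule R (FreeAlgebra R (Fin n)) :=
  Submodule.span R {w | ∃ l : List (Fin n), m ≤ l.length ∧
    w = (l.map (fun i => FreeAlgebra.ι R i - algebraMap R _ (p i))).prod}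

/-- The power `I^m` of the ideal `I = (x_1, …, x_n)` of the free algebra `R⟨x_1, …, x_n⟩`: the
`R`-span of all monomials of degree at least `m`. -/
def augPow (R : Type u) [CommRing R] (n m : ℕ) : Submodule R (FreeAlgebra R (Fin n)) :=
  Submodule.span R
    {w | ∃ l : List (Fin n), m ≤ l.length ∧ w = (l.map (FreeAlgebra.ι R)).prod}

/-- `φ` is good: for every `m ≥ 1` there are an endomorphism `ψ` and an automorphism `α` with
`φ = ψ ∘ α` and `ψ(x_i) ≡ x_i` modulo `I^m` for all `i`. -/
def IsGood {R : Type u} [CommRing R] {n : ℕ}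
    (φ : FreeAlgebra R (Fin n) →ₐ[R] FreeAlgebra R (Fin n)) : Prop :=
  ∀ m : ℕ, 1 ≤ m → ∃ (ψ : FreeAlgebra R (Fin n) →ₐ[R] FreeAlgebra R (Fin n))
    (α : FreeAlgebra R (Fin n) ≃ₐ[R] FreeAlgebra R (Fin n)),
      (∀ a, φ a = ψ (α a)) ∧
      ∀ i, ψ (FreeAlgebra.ι R i) - FreeAlgebra.ι R i ∈ augPow R n m

/-- The same notion for the opposite convention of composition: `φ = α ∘ ψ`. -/
def IsGoodOpp {R : Type u} [CommRing R] {n : ℕ}
    (φ : FreeAlgebra R (Fin n) →ₐ[R] FreeAlgebra R (Fin n)) : Prop :=
  ∀ m : ℕ, 1 ≤ m → ∃ (ψ : FreeAlgebra R (Fin n) →ₐ[R] FreeAlgebra R (Fin n))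
    (α : FreeAlgebra R (Fin n) ≃ₐ[R] FreeAlgebra R (Fin n)),
      (∀ a, φ a = α (ψ a)) ∧
      ∀ i, ψ (FreeAlgebra.ι R i) - FreeAlgebra.ι R i ∈ augPow R n m

/-- `φ` is approximable by automorphisms at moving base points: for every `m` there are a point `p` and an
automorphism `α` with `φ(x_i) ≡ α(x_i)` modulo the `m`-th power of `(x_1 - p_1, …, x_n - p_n)`. -/
def IsApproximable {R : Type u} [CommRing R] {n : ℕ}
    (φ : FreeAlgebra R (Fin n) →ₐ[R] FreeAlgebra R (Fin n)) : Prop :=
  ∀ m : ℕ, ∃ (p : Fin n → R) (α : FreeAlgebra R (Fin n) ≃ₐ[R] FreeAlgebra R (Fin n)),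
    ∀ i, φ (FreeAlgebra.ι R i) - α (FreeAlgebra.ι R i) ∈ powAt p m

variable {R : Type u} [CommRing R] {n : ℕ}

/-- identification of the free algebra with the free monoid algebra -/
noncomputable abbrev ee (R : Type u) [CommRing R] (n : ℕ) : FreeAlgebra R (Fin n) ≃ₐ[R] FR R n :=
  FreeAlgebra.equivMonoidAlgebraFreeMonoid

lemma ee_ι (i : Fin n) : ee R n (FreeAlgebra.ι R i) = gx i := by
  simp [ee, FreeAlgebra.equivMonoidAlgebraFreeMonoid, gx]

lemma ee_prod (l : List (Fin n)) :
    ee R n ((l.map (FreeAlgebra.ι R)).prod) = mon (FreeMonoid.ofList l) := by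
  induction l with
  | nil => rw [List.map_nil, List.prod_nil, map_one]; rfl
  | cons i l ih =>
    rw [List.map_cons, List.prod_cons, map_mul, ih, ee_ι, FreeMonoid.ofList_cons, mon_mul]
    rfl

/-- transport of an endomorphism -/
noncomputable def tp (φ : FreeAlgebra R (Fin n) →ₐ[R] FreeAlgebra R (Fin n)) :
    FR R n →ₐ[R] FR R n :=
  ((ee R n : FreeAlgebra R (Fin n) →ₐ[R] FR R n).comp φ).comp
    ((ee R n).symm : FR R n →ₐ[R] FreeAlgebra R (Fin n))

lemma tp_apply (φ : FreeAlgebra R (Fin n) →ₐ[R] FreeAlgebra R (Fin n)) (a : FR R n) :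
    tp φ a = ee R n (φ ((ee R n).symm a)) := rfl

lemma tp_gx (φ : FreeAlgebra R (Fin n) →ₐ[R] FreeAlgebra R (Fin n)) (i : Fin n) :
    tp φ (gx i) = ee R n (φ (FreeAlgebra.ι R i)) := by
  rw [tp_apply, ← ee_ι, AlgEquiv.symm_apply_apply]

lemma bij_of_tp (φ : FreeAlgebra R (Fin n) →ₐ[R] FreeAlgebra R (Fin n))
    (h : Function.Bijective (tp φ)) : Function.Bijective φ := by
  have h1 : (φ : FreeAlgebra R (Fin n) → FreeAlgebra R (Fin n))
      = (ee R n).symm ∘ (tp φ) ∘ (ee R n) := by
    funext a
    show φ a = (ee R n).symm (tp φ (ee R n a))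
    rw [tp_apply, AlgEquiv.symm_apply_apply, AlgEquiv.symm_apply_apply]
  rw [h1]
  exact (ee R n).symm.bijective.comp (h.comp (ee R n).bijective)

lemma ord_of_mem {m : ℕ} {a : FreeAlgebra R (Fin n)} (ha : a ∈ augPow R n m) :
    Ord m (ee R n a) := by
  induction ha using Submodule.span_induction with
  | mem x h =>
    obtain ⟨l, hl, rfl⟩ := h
    rw [ee_prod]
    exact Ord.mon _ hl
  | zero => rw [map_zero]; exact Ord.zero
  | add x y _ _ hx hy => rw [map_add]; exact hx.add hy
  | smul c x _ hx => rw [map_smul]; exact hx.smul c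

lemma ord_of_mem_powAt {p : Fin n → R} {m : ℕ} {a : FreeAlgebra R (Fin n)} (ha : a ∈ powAt p m) :
    Ord m (tr p (ee R n a)) := by
  induction ha using Submodule.span_induction with
  | mem x h =>
    obtain ⟨l, hl, rfl⟩ := h
    have e : tr p (ee R n ((l.map (fun i => FreeAlgebra.ι R i - algebraMap R _ (p i))).prod)) =
        mon (FreeMonoid.ofList l) := by
      clear hl
      induction l with
      | nil => rw [List.map_nil, List.prod_nil, map_one, map_one]; rfl
      | cons i l ih =>
        rw [List.map_cons, List.prod_cons, map_mul, map_mul, ih, FreeMonoid.ofList_cons, mon_mul,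
          map_sub, ee_ι, map_sub, tr_gx, AlgEquiv.commutes, AlgHom.commutes,
          Algebra.algebraMap_eq_smul_one, add_sub_cancel_right]
        rfl
    rw [e]
    exact Ord.mon _ hl
  | zero => rw [map_zero, map_zero]; exact Ord.zero
  | add x y _ _ hx hy => rw [map_add, map_add]; exact hx.add hy
  | smul c x _ hx => rw [map_smul, map_smul]; exact hx.smul c

/-- transport of an automorphism to the monoid algebra -/
noncomputable def tE (α : FreeAlgebra R (Fin n) ≃ₐ[R] FreeAlgebra R (Fin n)) :
    FR R n ≃ₐ[R] FR R n :=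
  ((ee R n).symm.trans α).trans (ee R n)

lemma tE_gx (α : FreeAlgebra R (Fin n) ≃ₐ[R] FreeAlgebra R (Fin n)) (i : Fin n) :
    tE α (gx i) = ee R n (α (FreeAlgebra.ι R i)) := by
  show ee R n (α ((ee R n).symm (gx i))) = _
  rw [← ee_ι, AlgEquiv.symm_apply_apply]

lemma tr_zero (a : FR R n) : tr (fun _ => (0 : R)) a = a := by
  have : tr (fun _ => (0 : R)) = AlgHom.id R (FR R n) := by
    apply hom_ext
    intro i
    rw [tr_gx, zero_smul, add_zero]
    rfl
  rw [this]
  rfl

lemma approx_of_approximable (φ : FreeAlgebra R (Fin n) →ₐ[R] FreeAlgebra R (Fin n))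
    (h : IsApproximable φ) : Approx (tp φ) := by
  intro m
  obtain ⟨p, α, h1⟩ := h m
  refine ⟨p, tE α, fun i => ?_⟩
  rw [tp_gx, tE_gx, ← map_sub]
  exact ord_of_mem_powAt (h1 i)

lemma approx_of_good (φ : FreeAlgebra R (Fin n) →ₐ[R] FreeAlgebra R (Fin n)) (h : IsGood φ) :
    Approx (tp φ) := by
  intro m
  obtain ⟨ψ, α, h1, h2⟩ := h (m + 1) (by omega)
  refine ⟨fun _ => 0, tE α, fun i => ?_⟩
  rw [tr_zero]
  have h3 : ∀ i, Ord m ((tp ψ) (gx i) - (AlgHom.id R (FR R n)) (gx i)) := by
    intro i
    rw [tp_gx, AlgHom.id_apply, ← ee_ι, ← map_sub]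
    exact (ord_of_mem (h2 i)).mono (by omega)
  have h4 := hom_sub_ord (tp ψ) (AlgHom.id R (FR R n)) h3 (tE α (gx i))
  have h5 : (tp ψ) (tE α (gx i)) = tp φ (gx i) := by
    rw [tp_gx, h1, tp_apply]
    show ee R n (ψ ((ee R n).symm (ee R n (α ((ee R n).symm (gx i)))))) = _
    rw [AlgEquiv.symm_apply_apply, ← ee_ι, AlgEquiv.symm_apply_apply]
  rwa [h5, AlgHom.id_apply] at h4

lemma approx_of_goodOpp (φ : FreeAlgebra R (Fin n) →ₐ[R] FreeAlgebra R (Fin n))
    (h : IsGoodOpp φ) : Approx (tp φ) := by
  intro m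
  obtain ⟨ψ, α, h1, h2⟩ := h (m + 1) (by omega)
  let p : Fin n → R := fun j => eps R n ((tE α).symm (gx j))
  have hp : (eps R n).comp (tr p)
      = (eps R n).comp ((tE α).symm : FR R n →ₐ[R] FR R n) := by
    apply hom_ext
    intro i
    show eps R n (tr p (gx i)) = eps R n ((tE α).symm (gx i))
    rw [tr_gx, map_add, eps_gx, map_smul, map_one, zero_add, smul_eq_mul, mul_one]
  refine ⟨p, tE α, fun i => ?_⟩
  have h3 : Ord m ((tp ψ) (gx i) - gx i) := by
    rw [tp_gx, ← ee_ι, ← map_sub]
    exact (ord_of_mem (h2 i)).mono (by omega)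
  have h4 : ∀ j, Ord 1 (((tr p).comp (tE α : FR R n →ₐ[R] FR R n)) (gx j)) := by
    intro j
    rw [ord_one_iff]
    have h5 := congrArg (fun g : FR R n →ₐ[R] R => g (tE α (gx j))) hp
    simp only [AlgHom.comp_apply] at h5
    have h6 : ((tE α).symm : FR R n →ₐ[R] FR R n) (tE α (gx j)) = gx j :=
      (tE α).symm_apply_apply _
    rw [h6, eps_gx] at h5
    exact h5
  have h7 := h3.map ((tr p).comp (tE α : FR R n →ₐ[R] FR R n)) h4
  have h8 : ((tr p).comp (tE α : FR R n →ₐ[R] FR R n)) ((tp ψ) (gx i) - gx i)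
      = tr p (tp φ (gx i) - tE α (gx i)) := by
    show tr p (tE α ((tp ψ) (gx i) - gx i)) = _
    rw [map_sub (tE α)]
    congr 2
    rw [tp_gx, tp_gx, h1]
    show ee R n (α ((ee R n).symm (ee R n (ψ (FreeAlgebra.ι R i))))) = _
    rw [AlgEquiv.symm_apply_apply]
  rwa [h8] at h7

/-- **Over every commutative ring `R`, every good endomorphism of the free associative algebra
`R⟨x_1, …, x_n⟩` is an automorphism** (for either order of composition in the definition of good), and so
is every endomorphism which is approximable by automorphisms at moving base points. -/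
theorem result (R : Type u) [CommRing R] (n : ℕ)
    (φ : FreeAlgebra R (Fin n) →ₐ[R] FreeAlgebra R (Fin n))
    (hφ : IsGood φ ∨ IsGoodOpp φ ∨ IsApproximable φ) :
    Function.Bijective φ := by
  apply bij_of_tp
  apply bijective_of_approx
  rcases hφ with h | h | h
  · exact approx_of_good φ h
  · exact approx_of_goodOpp φ h
  · exact approx_of_approximable φ h

end Pool.Agent.Results.MP_54c2ef_al.AllCommutativeRings
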