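import Pool.Agent.Y814.FD.QFinal

/-!
MP_54c2ef_al, a finite, effective and uniform form of the theorem that good endomorphisms of free
associative algebras are automorphisms.

There are explicit numbers `M = level n d` and `E = invDeg n d` such that over every field `K` an
endomorphism of `K⟨x_1, …, x_n⟩` of degree at most `d` which is good at the single level `M` is an
automorphism whose inverse has degree at most `E`.

Proof in outline.  All steps of the proof of the qualitative theorem are made quantitative: the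
Levitzki step (nilpotency of the words up to the length `2^s (s+1)` is enough), the pencil step
(evaluations at matrices of bounded size are enough), linearisation (with degree bounds for the
inverse matrices), and the final step on a finite-dimensional stable space of known dimension.
-/

set_option autoImplicit false

namespace Pool.Agent.Results.MP_54c2ef_al.FiniteDeterminacy

open Pool.Agent.H193R3 Pool.Agent.Y814.FD

universe u

/-- The power `I^m` of the ideal `I = (x_1, …, x_n)` of the free algebra `K⟨x_1, …, x_n⟩`: the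
`K`-span of all monomials of degree at least `m`. -/
def augPow (K : Type u) [Field K] (n m : ℕ) : Submodule K (FreeAlgebra K (Fin n)) :=
  Submodule.span K
    {w | ∃ l : List (Fin n), m ≤ l.length ∧ w = (l.map (FreeAlgebra.ι K)).prod}

/-- The elements of degree at most `d` of `K⟨x_1, …, x_n⟩`: the `K`-span of all monomials of
degree at most `d`. -/
def degLE (K : Type u) [Field K] (n d : ℕ) : Submodule K (FreeAlgebra K (Fin n)) :=
  Submodule.span K
    {w | ∃ l : List (Fin n), l.length ≤ d ∧ w = (l.map (FreeAlgebra.ι K)).prod}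

/-- `2^s (s+1)` -/
def lev (s : ℕ) : ℕ := 2 ^ s * (1 + s)

/-- `n (n+1)^d` -/
def siz (n d : ℕ) : ℕ := n * (1 + n) ^ d

/-- The bound for the degree of the inverse of the Jacobian matrix: `a (b + d + 1) + b` with
`a = n (n+1)^d` and `b = n (n+1)^(2d)`. -/
def jacDeg (n d : ℕ) : ℕ := siz n d * (siz n (2 * d) + d + 1) + siz n (2 * d)

/-- The bound for the degree of the inverse endomorphism: `1 + n + ⋯ + n^(jacDeg n d + 1)`. -/
def invDeg (n d : ℕ) : ℕ := ∑ k ∈ Finset.range (jacDeg n d + 2), n ^ k

/-- The size of matrices at which the Jacobian matrix has to be tested: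
`lev a * lev (a (n+1)^(lev a * (b + d)))` with `a = n (n+1)^d` and `b = n (n+1)^(2d)`. -/
def matSize (n d : ℕ) : ℕ :=
  lev (siz n d) * lev (siz n d * (1 + n) ^ (lev (siz n d) * (siz n (2 * d) + d)))

/-- The level of goodness which is sufficient in degree at most `d`. -/
def level (n d : ℕ) : ℕ :=
  max (n * matSize n d * d + 2) (invDeg n d * lev (invDeg n d) + 1)

/-- `φ` is good at the level `m`: there are an endomorphism `ψ` and an automorphism `α` with
`φ = ψ ∘ α` or `φ = α ∘ ψ` (both orders of composition are allowed) and `ψ(x_i) ≡ x_i` modulo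
`I^m` for all `i`. -/
def GoodAt {K : Type u} [Field K] {n : ℕ} (m : ℕ)
    (φ : FreeAlgebra K (Fin n) →ₐ[K] FreeAlgebra K (Fin n)) : Prop :=
  ∃ (ψ : FreeAlgebra K (Fin n) →ₐ[K] FreeAlgebra K (Fin n))
    (α : FreeAlgebra K (Fin n) ≃ₐ[K] FreeAlgebra K (Fin n)),
      ((∀ a, φ a = ψ (α a)) ∨ (∀ a, φ a = α (ψ a))) ∧
      ∀ i, ψ (FreeAlgebra.ι K i) - FreeAlgebra.ι K i ∈ augPow K n m

variable {K : Type u} [Field K] {n : ℕ}

lemma ordGE_of_mem {m : ℕ} {a : FreeAlgebra K (Fin n)} (ha : a ∈ augPow K n m) :
    OrdGE m (ee K n a) := by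
  induction ha using Submodule.span_induction with
  | mem x h =>
    obtain ⟨l, hl, rfl⟩ := h
    rw [ee_prod]
    exact OrdGE.mon _ hl
  | zero => rw [map_zero]; exact OrdGE.zero
  | add x y _ _ hx hy => rw [map_add]; exact hx.add hy
  | smul c x _ hx => rw [map_smul]; exact hx.smul c

lemma degA_of_mem {d : ℕ} {a : FreeAlgebra K (Fin n)} (ha : a ∈ degLE K n d) :
    ee K n a ∈ degA K n d := by
  induction ha using Submodule.span_induction with
  | mem x h =>
    obtain ⟨l, hl, rfl⟩ := h
    rw [ee_prod]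
    exact mon_mem_degA _ hl
  | zero => rw [map_zero]; exact Submodule.zero_mem _
  | add x y _ _ hx hy => rw [map_add]; exact Submodule.add_mem _ hx hy
  | smul c x _ hx => rw [map_smul]; exact Submodule.smul_mem _ _ hx

lemma mem_of_degA {d : ℕ} {a : FA K n} (ha : a ∈ degA K n d) :
    (ee K n).symm a ∈ degLE K n d := by
  rw [FA_sum a, map_sum]
  apply Submodule.sum_mem
  intro w hw
  rw [map_smul]
  apply Submodule.smul_mem
  apply Submodule.subset_span
  refine ⟨w.toList, ?_, ?_⟩
  · by_contra hlt
    exact (Finsupp.mem_support_iff.mp hw) (mem_degA.1 ha w (by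
      show d < w.toList.length
      omega))
  · apply (ee K n).injective
    rw [AlgEquiv.apply_symm_apply, ee_prod]
    rfl

/-- transport of an automorphism to the monoid algebra -/
noncomputable def tE (α : FreeAlgebra K (Fin n) ≃ₐ[K] FreeAlgebra K (Fin n)) :
    FA K n ≃ₐ[K] FA K n :=
  ((ee K n).symm.trans α).trans (ee K n)

lemma app_of_goodAt (m : ℕ) (φ : FreeAlgebra K (Fin n) →ₐ[K] FreeAlgebra K (Fin n))
    (h : GoodAt m φ) : App m (tp φ) := by
  obtain ⟨ψ, α, h1 | h1, h2⟩ := h
  · refine ⟨fun _ => 0, tE α, fun i => ?_⟩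
    rw [tr_zero]
    have h3 : ∀ i, OrdGE m ((tp ψ) (gx i) - (AlgHom.id K (FA K n)) (gx i)) := by
      intro i
      rw [tp_gx, AlgHom.id_apply, ← ee_ι, ← map_sub]
      exact ordGE_of_mem (h2 i)
    have h4 := hom_sub_ordGE (tp ψ) (AlgHom.id K (FA K n)) h3 (tE α (gx i))
    have h5 : (tp ψ) (tE α (gx i)) = tp φ (gx i) := by
      rw [tp_gx, h1, tp_apply]
      show ee K n (ψ ((ee K n).symm (ee K n (α ((ee K n).symm (gx i)))))) = _
      rw [AlgEquiv.symm_apply_apply, ← ee_ι, AlgEquiv.symm_apply_apply]
    rwa [h5, AlgHom.id_apply] at h4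
  · let p : Fin n → K := fun j => eps K n ((tE α).symm (gx j))
    have hp : (eps K n).comp (tr p)
        = (eps K n).comp ((tE α).symm : FA K n →ₐ[K] FA K n) := by
      apply FA_hom_ext
      intro i
      show eps K n (tr p (gx i)) = eps K n ((tE α).symm (gx i))
      rw [tr_gx, map_add, eps_gx, map_smul, map_one, zero_add, smul_eq_mul, mul_one]
    refine ⟨p, tE α, fun i => ?_⟩
    have h3 : OrdGE m ((tp ψ) (gx i) - gx i) := by
      rw [tp_gx, ← ee_ι, ← map_sub]
      exact ordGE_of_mem (h2 i)
    have h4 : ∀ j, OrdGE 1 (((tr p).comp (tE α : FA K n →ₐ[K] FA K n)) (gx j)) := by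
      intro j
      rw [ordGE_one_iff]
      have h5 := congrArg (fun g : FA K n →ₐ[K] K => g (tE α (gx j))) hp
      simp only [AlgHom.comp_apply] at h5
      have h6 : ((tE α).symm : FA K n →ₐ[K] FA K n) (tE α (gx j)) = gx j :=
        (tE α).symm_apply_apply _
      rw [h6, eps_gx] at h5
      exact h5
    have h7 := h3.map ((tr p).comp (tE α : FA K n →ₐ[K] FA K n)) h4
    have h8 : ((tr p).comp (tE α : FA K n →ₐ[K] FA K n)) ((tp ψ) (gx i) - gx i)
        = tr p (tp φ (gx i) - tE α (gx i)) := by
      show tr p (tE α ((tp ψ) (gx i) - gx i)) = _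
      rw [map_sub (tE α)]
      congr 2
      rw [tp_gx, tp_gx, h1]
      show ee K n (α ((ee K n).symm (ee K n (ψ (FreeAlgebra.ι K i))))) = _
      rw [AlgEquiv.symm_apply_apply]
    rwa [h8] at h7

/-- **Effective finite determinacy for endomorphisms of free associative algebras.**  Over every
field, an endomorphism of degree at most `d` of the free algebra of rank `n` which is good at the
single level `level n d` is an automorphism, and its inverse has degree at most `invDeg n d`. -/
theorem result (n d : ℕ) (K : Type u) [Field K]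
    (φ : FreeAlgebra K (Fin n) →ₐ[K] FreeAlgebra K (Fin n))
    (hd : ∀ i, φ (FreeAlgebra.ι K i) ∈ degLE K n d) (hφ : GoodAt (level n d) φ) :
    ∃ β : FreeAlgebra K (Fin n) ≃ₐ[K] FreeAlgebra K (Fin n),
      (∀ a, β a = φ a) ∧ ∀ i, β.symm (FreeAlgebra.ι K i) ∈ degLE K n (invDeg n d) := by
  obtain ⟨hbij, hpre⟩ := fin_det K n d (siz n d) (siz n (2 * d))
    (lev (siz n d * (1 + n) ^ (lev (siz n d) * (siz n (2 * d) + d)))) (jacDeg n d) (invDeg n d)
    (level n d) rfl (by unfold siz; ring) rfl rfl rfl (le_max_left _ _) (le_max_right _ _)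
    (tp φ) (fun i => by rw [tp_gx]; exact degA_of_mem (hd i)) (app_of_goodAt _ φ hφ)
  refine ⟨AlgEquiv.ofBijective φ (bij_of_tp φ hbij), fun a => rfl, fun i => ?_⟩
  obtain ⟨g, hg1, hg2⟩ := hpre i
  have h1 : (AlgEquiv.ofBijective φ (bij_of_tp φ hbij)).symm (FreeAlgebra.ι K i)
      = (ee K n).symm g := by
    rw [AlgEquiv.symm_apply_eq]
    show FreeAlgebra.ι K i = φ ((ee K n).symm g)
    apply (ee K n).injective
    rw [← tp_apply, hg2, ee_ι]
  rw [h1]
  exact mem_of_degA hg1

/-- every endomorphism has bounded degree -/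
lemma exists_degLE (φ : FreeAlgebra K (Fin n) →ₐ[K] FreeAlgebra K (Fin n)) :
    ∃ d, ∀ i, φ (FreeAlgebra.ι K i) ∈ degLE K n d := by
  choose d hd using fun i => exists_degA (ee K n (φ (FreeAlgebra.ι K i)))
  refine ⟨∑ i, d i, fun i => ?_⟩
  have h1 := mem_of_degA (degA_mono (Finset.single_le_sum (f := d) (fun _ _ => Nat.zero_le _)
    (Finset.mem_univ i)) (hd i))
  rwa [AlgEquiv.symm_apply_apply] at h1

/-- Special case: the inverse of an automorphism of degree at most `d` has degree at most
`invDeg n d`. -/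
theorem inverse_degree (n d : ℕ) (K : Type u) [Field K]
    (α : FreeAlgebra K (Fin n) ≃ₐ[K] FreeAlgebra K (Fin n))
    (hα : ∀ i, α (FreeAlgebra.ι K i) ∈ degLE K n d) :
    ∀ i, α.symm (FreeAlgebra.ι K i) ∈ degLE K n (invDeg n d) := by
  obtain ⟨β, h1, h2⟩ := result n d K (α : FreeAlgebra K (Fin n) →ₐ[K] FreeAlgebra K (Fin n)) hα
    ⟨AlgHom.id K _, α, Or.inl fun a => rfl, fun i => by
      rw [AlgHom.id_apply, sub_self]; exact Submodule.zero_mem _⟩
  have h3 : β = α := AlgEquiv.ext h1
  rwa [h3] at h2

/-- Special case: an endomorphism which is good at every level is an automorphism. -/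
theorem bijective_of_good (n : ℕ) (K : Type u) [Field K]
    (φ : FreeAlgebra K (Fin n) →ₐ[K] FreeAlgebra K (Fin n)) (hφ : ∀ m : ℕ, 1 ≤ m → GoodAt m φ) :
    Function.Bijective φ := by
  obtain ⟨d, hd⟩ := exists_degLE φ
  obtain ⟨β, h1, _⟩ := result n d K φ hd (hφ (level n d)
    (le_trans (by omega) (le_max_left (n * matSize n d * d + 2) _)))
  have h3 : (φ : FreeAlgebra K (Fin n) → FreeAlgebra K (Fin n)) = β := funext fun a => (h1 a).symm
  rw [h3]
  exact β.bijective

end Pool.Agent.Results.MP_54c2ef_al.FiniteDeterminacy
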